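import Pool.Agent.U858.MV2.Core3
import Pool.Agent.U780.MV.PR
import Pool.Agent.U761.SZ.SARG

set_option autoImplicit false

/-!
U858.MV2: package SB of project MV2: moments of the argument of zeta.
-/

namespace Pool.Agent.U858.MV2

open MeasureTheory Filter Topology Set Complex
open Pool.Agent.Q97.UM (dp N2 prc zt)
open Pool.Agent.U761.SZ (THS Lz LE aS sqc LE_prc LE_cont aS_meas piS ae_piS)

noncomputable section

theorem prl_eq (X : ℕ) : prl X = prc X := by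
  funext n
  unfold prl prc
  congr

theorem sql_eq (X : ℕ) : sql X = sqc X := by
  funext n
  unfold sql sqc
  congr

theorem dpl_eq (M : ℕ) (c : ℕ → ℂ) (t : ℝ) : dpl M c t = dp M c t := rfl

theorem N2l_eq (N : ℕ) (b : ℕ → ℂ) : N2l N b = N2 N b := rfl

theorem aS_moments : ∃ K T0 : ℝ, 0 < K ∧ 10 ≤ T0 ∧ ∀ T : ℝ, T0 ≤ T → IntegrableOn (fun t => aS t ^ 4) (Icc (T / 2) (3 * T)) ∧
      (∫ t in (T / 2)..(3 * T), aS t ^ 4) ≤ K * (T * Real.log T) ∧
      (∫ t in T..(2 * T), (∫ y in (t - 1 / 2)..(t + 1 / 2), aS y) ^ 2) ≤ K * T := by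
  obtain ⟨θ, δ₀, hθ, hδ₀, hTHS⟩ := THS 4
  obtain ⟨δ, hδd⟩ : ∃ δ : ℝ, δ = min δ₀ (1 / 16) := ⟨_, rfl⟩
  have hδ : 0 < δ := by rw [hδd]; positivity
  obtain ⟨C, hC, hev⟩ := hTHS δ hδ (by rw [hδd]; exact min_le_left _ _)
  have hZ3 : 0 ≤ 4 / 3 * Pool.Agent.Q149.UM.Z3 := mul_nonneg (by norm_num) Pool.Agent.Q149.UM.Z3_nonneg
  refine core (f := aS) (LI := fun X t => (LE X t).im) (δ := δ) (C := C) (B := 4 / 3 * Pool.Agent.Q149.UM.Z3) aS_meas ?_
    Pool.Agent.U780.MV.PR.t_PR hδ (by rw [hδd]; exact min_le_right _ _) hC hZ3 ?_ ?_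
  · intro T hT N hN b
    exact (Pool.Agent.Q84.UM.t_MVL T hT N hN b).2
  · intro X t
    have h1 := LE_prc X t
    have h2 := (Complex.abs_im_le_norm _).trans h1
    rw [prl_eq, sql_eq]
    have e : (LE X t - dp X (prc X) t - dp (X ^ 2) (sqc X) t / 2).im =
        (LE X t).im - (dpl X (prc X) t).im - (dpl (X ^ 2) (sqc X) t).im / 2 := by
      rw [Complex.sub_im, Complex.sub_im]
      congr 1
      rw [show dp (X ^ 2) (sqc X) t / 2 = dp (X ^ 2) (sqc X) t / ((2 : ℝ) : ℂ) by norm_num, Complex.div_ofReal_im]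
      rfl
    rw [e] at h2
    exact h2
  · filter_upwards [hev, eventually_ge_atTop (1 : ℝ)] with T hT hT1
    have hN : ((1 : ℕ) : ℝ) ≤ T ^ θ := by
      rw [Nat.cast_one]
      exact Real.one_le_rpow hT1 hθ.le
    obtain ⟨i1, i2⟩ := hT 1 hN (fun _ => 1)
    have e1 : ∀ t : ℝ, dp 1 (fun _ => 1) t = 1 := by
      intro t
      unfold Pool.Agent.Q97.UM.dp
      simp
    have e2 : N2 1 (fun _ => 1) = 1 := by
      unfold Pool.Agent.Q97.UM.N2
      simp
    have e3 : (fun t => ‖Lz t - LE ⌊T ^ δ⌋₊ t‖ ^ 4 * ‖dp 1 (fun _ => 1) t‖ ^ 2) = fun t => ‖Lz t - LE ⌊T ^ δ⌋₊ t‖ ^ 4 := by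
      funext t
      rw [e1, norm_one, one_pow, mul_one]
    rw [e3] at i1 i2
    rw [e2, mul_one] at i2
    have hle : T / 2 ≤ 4 * T := by linarith
    have hpt : ∀ t : ℝ, |aS t - (LE ⌊T ^ δ⌋₊ t).im| ^ 4 ≤ ‖Lz t - LE ⌊T ^ δ⌋₊ t‖ ^ 4 := by
      intro t
      refine pow_le_pow_left₀ (abs_nonneg _) ?_ 4
      have h := Complex.abs_im_le_norm (Lz t - LE ⌊T ^ δ⌋₊ t)
      rw [Complex.sub_im] at h
      exact h
    have i3 : IntervalIntegrable (fun t => |aS t - (LE ⌊T ^ δ⌋₊ t).im| ^ 4) volume (T / 2) (4 * T) := by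
      refine i1.mono_fun' ?_ (Eventually.of_forall fun t => ?_)
      · have hm : Measurable fun t => |aS t - (LE ⌊T ^ δ⌋₊ t).im| ^ 4 :=
          ((aS_meas.sub (Complex.measurable_im.comp (LE_cont _).measurable)).abs).pow_const 4
        exact hm.aestronglyMeasurable
      · simp only
        rw [Real.norm_of_nonneg (by positivity)]
        exact hpt t
    exact ⟨i3, (intervalIntegral.integral_mono hle i3 i1 hpt).trans i2⟩

theorem pS_eq (t : ℝ) : Pool.Agent.U398.MV.pS t = 1 / Real.pi * piS t := rfl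

theorem pS_ae : ∀ᵐ t : ℝ, Pool.Agent.U398.MV.pS t = 1 / Real.pi * aS t := by
  filter_upwards [ae_piS] with t ht
  rw [pS_eq, ht]

/-- package SB -/
theorem t_SB : Pool.Agent.U398.MV.S_SB := by
  have hpi := Real.pi_gt_three
  have hp1 : 1 / Real.pi ≤ 1 := by
    rw [div_le_one (by linarith)]
    linarith
  have hp0 : 0 ≤ 1 / Real.pi := by positivity
  refine ⟨(aS_meas.const_mul (1 / Real.pi)).aestronglyMeasurable.congr (pS_ae.mono fun t ht => ht.symm), ?_⟩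
  obtain ⟨K, T0, hK, hT0, h⟩ := aS_moments
  refine ⟨K, T0, hK, hT0, fun T hT => ?_⟩
  obtain ⟨h1, h2, h3⟩ := h T hT
  have hT0' : 0 < T := by linarith
  have hle : T / 2 ≤ 3 * T := by linarith
  have e4 : ∀ᵐ t : ℝ, Pool.Agent.U398.MV.pS t ^ 4 = (1 / Real.pi) ^ 4 * aS t ^ 4 := by
    filter_upwards [pS_ae] with t ht
    rw [ht]; ring
  refine ⟨?_, ?_, ?_⟩
  · refine (h1.const_mul ((1 / Real.pi) ^ 4)).congr ?_
    exact (ae_restrict_of_ae e4).mono fun t ht => ht.symm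
  · have e5 : ∫ t in (T / 2)..(3 * T), Pool.Agent.U398.MV.pS t ^ 4 = (1 / Real.pi) ^ 4 * ∫ t in (T / 2)..(3 * T), aS t ^ 4 := by
      rw [← intervalIntegral.integral_const_mul]
      exact intervalIntegral.integral_congr_ae (e4.mono fun t ht _ => ht)
    rw [e5]
    have h4 : 0 ≤ ∫ t in (T / 2)..(3 * T), aS t ^ 4 := intervalIntegral.integral_nonneg hle fun t _ => by positivity
    have h5 : (1 / Real.pi) ^ 4 ≤ 1 := pow_le_one₀ hp0 hp1
    calc _ ≤ 1 * ∫ t in (T / 2)..(3 * T), aS t ^ 4 := mul_le_mul_of_nonneg_right h5 h4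
      _ = _ := one_mul _
      _ ≤ _ := h2
  · have e6 : ∀ t : ℝ, ∫ y in (t - 1 / 2)..(t + 1 / 2), Pool.Agent.U398.MV.pS y = 1 / Real.pi * ∫ y in (t - 1 / 2)..(t + 1 / 2), aS y := by
      intro t
      rw [← intervalIntegral.integral_const_mul]
      exact intervalIntegral.integral_congr_ae (pS_ae.mono fun y hy _ => hy)
    have e7 : ∫ t in T..(2 * T), (∫ y in (t - 1 / 2)..(t + 1 / 2), Pool.Agent.U398.MV.pS y) ^ 2 =
        (1 / Real.pi) ^ 2 * ∫ t in T..(2 * T), (∫ y in (t - 1 / 2)..(t + 1 / 2), aS y) ^ 2 := by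
      rw [← intervalIntegral.integral_const_mul]
      refine intervalIntegral.integral_congr fun t _ => ?_
      show (∫ y in (t - 1 / 2)..(t + 1 / 2), Pool.Agent.U398.MV.pS y) ^ 2 = _
      rw [e6 t]
      ring
    rw [e7]
    have h4 : 0 ≤ ∫ t in T..(2 * T), (∫ y in (t - 1 / 2)..(t + 1 / 2), aS y) ^ 2 :=
      intervalIntegral.integral_nonneg (by linarith) fun t _ => by positivity
    have h5 : (1 / Real.pi) ^ 2 ≤ 1 := pow_le_one₀ hp0 hp1
    calc _ ≤ 1 * ∫ t in T..(2 * T), (∫ y in (t - 1 / 2)..(t + 1 / 2), aS y) ^ 2 := mul_le_mul_of_nonneg_right h5 h4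
      _ = _ := one_mul _
      _ ≤ _ := h3

end

end Pool.Agent.U858.MV2

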