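import Mathlib

set_option autoImplicit false

/-!
U858.MV2: moments of the argument of zeta, abstract part (package SB of project MV2): elementary lemmas.
-/

namespace Pool.Agent.U858.MV2

open MeasureTheory Filter Topology Set Complex

noncomputable section

/-- Dirichlet polynomials on the critical line -/
def dpl (M : ℕ) (c : ℕ → ℂ) (t : ℝ) : ℂ := ∑ n ∈ Finset.Icc 1 M, c n * (n : ℂ) ^ (-(1 / 2 + t * I))

/-- the square mean of the coefficients -/
def N2l (N : ℕ) (b : ℕ → ℂ) : ℝ := ∑ n ∈ Finset.Icc 1 N, ‖b n‖ ^ 2 / n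

/-- the convolution -/
def cvl (a b : ℕ → ℂ) (n : ℕ) : ℂ := ∑ p ∈ n.divisorsAntidiagonal, a p.1 * b p.2

/-- indicator of the primes up to `X` -/
def prl (X n : ℕ) : ℂ := if n.Prime ∧ n ≤ X then 1 else 0

/-- indicator of the squares of the primes up to `X` -/
def sql (X n : ℕ) : ℂ := open Classical in if ∃ p : ℕ, p.Prime ∧ p ≤ X ∧ n = p ^ 2 then 1 else 0

theorem four3 (a b c : ℝ) : (a + b + c) ^ 4 ≤ 27 * (a ^ 4 + b ^ 4 + c ^ 4) := by
  have h1 : (a + b + c) ^ 2 ≤ 3 * (a ^ 2 + b ^ 2 + c ^ 2) := by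
    nlinarith [sq_nonneg (a - b), sq_nonneg (b - c), sq_nonneg (a - c)]
  have h2 : (a ^ 2 + b ^ 2 + c ^ 2) ^ 2 ≤ 3 * (a ^ 4 + b ^ 4 + c ^ 4) := by
    nlinarith [sq_nonneg (a ^ 2 - b ^ 2), sq_nonneg (b ^ 2 - c ^ 2), sq_nonneg (a ^ 2 - c ^ 2)]
  have h3 : 0 ≤ (a + b + c) ^ 2 := sq_nonneg _
  have h4 : ((a + b + c) ^ 2) ^ 2 ≤ (3 * (a ^ 2 + b ^ 2 + c ^ 2)) ^ 2 := pow_le_pow_left₀ h3 h1 2
  nlinarith

theorem four2 (a b : ℝ) : (a + b) ^ 4 ≤ 8 * (a ^ 4 + b ^ 4) := by
  have h1 : (a + b) ^ 2 ≤ 2 * (a ^ 2 + b ^ 2) := by nlinarith [sq_nonneg (a - b)]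
  have h2 : (a ^ 2 + b ^ 2) ^ 2 ≤ 2 * (a ^ 4 + b ^ 4) := by nlinarith [sq_nonneg (a ^ 2 - b ^ 2)]
  have h4 : ((a + b) ^ 2) ^ 2 ≤ (2 * (a ^ 2 + b ^ 2)) ^ 2 := pow_le_pow_left₀ (sq_nonneg _) h1 2
  nlinarith

/-- Cauchy-Schwarz on an interval of length one -/
theorem sq_int_le {h : ℝ → ℝ} {a b : ℝ} (hab : b = a + 1) (hi : IntervalIntegrable h volume a b)
    (hi2 : IntervalIntegrable (fun y => h y ^ 2) volume a b) :
    (∫ y in a..b, h y) ^ 2 ≤ ∫ y in a..b, h y ^ 2 := by
  set m := ∫ y in a..b, h y with hm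
  have h1 : 0 ≤ ∫ y in a..b, (h y - m) ^ 2 :=
    intervalIntegral.integral_nonneg (by linarith) fun y _ => sq_nonneg _
  have h2 : ∫ y in a..b, (h y - m) ^ 2 = (∫ y in a..b, h y ^ 2) - 2 * m * m + m ^ 2 := by
    have e : (fun y => (h y - m) ^ 2) = fun y => h y ^ 2 - 2 * m * h y + m ^ 2 := by
      funext y; ring
    rw [e, intervalIntegral.integral_add (hi2.sub (hi.const_mul _)) intervalIntegrable_const,
      intervalIntegral.integral_sub hi2 (hi.const_mul _), intervalIntegral.integral_const_mul,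
      intervalIntegral.integral_const, ← hm, show b - a = 1 by linarith, one_smul]
  nlinarith

/-- averages over windows of length one -/
theorem window {h : ℝ → ℝ} {a b A B : ℝ} (h0 : ∀ y, 0 ≤ h y) (hA : A + 1 / 2 ≤ a) (hab : a ≤ b) (hB : b + 1 / 2 ≤ B)
    (hi : IntervalIntegrable h volume A B) :
    ContinuousOn (fun t => ∫ y in (t - 1 / 2)..(t + 1 / 2), h y) (Icc a b) ∧
    ∫ t in a..b, ∫ y in (t - 1 / 2)..(t + 1 / 2), h y ≤ ∫ y in A..B, h y := by
  have hAB : A ≤ B := by linarith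
  have hsub : ∀ {x y : ℝ}, A ≤ x → x ≤ B → A ≤ y → y ≤ B → IntervalIntegrable h volume x y := by
    intro x y hx1 hx2 hy1 hy2
    refine hi.mono_set ?_
    rw [uIcc_of_le hAB]
    exact uIcc_subset_Icc ⟨hx1, hx2⟩ ⟨hy1, hy2⟩
  set F : ℝ → ℝ := fun t => ∫ y in A..t, h y with hF
  have hFc : ContinuousOn F (Icc A B) := by
    have := intervalIntegral.continuousOn_primitive_interval' (μ := volume) (f := h) (b₁ := A) (b₂ := B) (a := A) hi
      (by rw [uIcc_of_le hAB]; exact ⟨le_rfl, hAB⟩)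
    rwa [uIcc_of_le hAB] at this
  have e : ∀ t ∈ Icc a b, ∫ y in (t - 1 / 2)..(t + 1 / 2), h y = F (t + 1 / 2) - F (t - 1 / 2) := by
    intro t ht
    rw [hF]
    simp only
    rw [intervalIntegral.integral_interval_sub_left (hsub le_rfl hAB (by linarith [ht.1]) (by linarith [ht.2]))
      (hsub le_rfl hAB (by linarith [ht.1]) (by linarith [ht.2]))]
  have c1 : ContinuousOn (fun t => F (t + 1 / 2)) (Icc a b) :=
    hFc.comp (by fun_prop) fun t ht => ⟨by linarith [ht.1], by linarith [ht.2]⟩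
  have c2 : ContinuousOn (fun t => F (t - 1 / 2)) (Icc a b) :=
    hFc.comp (by fun_prop) fun t ht => ⟨by linarith [ht.1], by linarith [ht.2]⟩
  have hmono : ∀ x y, A ≤ x → x ≤ y → y ≤ B → F x ≤ F y := by
    intro x y h1 h2 h3
    have := intervalIntegral.integral_add_adjacent_intervals (hsub le_rfl hAB h1 (by linarith))
      (hsub (x := x) (y := y) h1 (by linarith) (by linarith) h3)
    have h4 : 0 ≤ ∫ z in x..y, h z := intervalIntegral.integral_nonneg h2 fun z _ => h0 z
    simp only [hF]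
    linarith
  have hF0 : ∀ x, A ≤ x → x ≤ B → 0 ≤ F x := fun x h1 _ => intervalIntegral.integral_nonneg h1 fun z _ => h0 z
  refine ⟨(c1.sub c2).congr e, ?_⟩
  have e1 : ∫ t in a..b, ∫ y in (t - 1 / 2)..(t + 1 / 2), h y = ∫ t in a..b, (F (t + 1 / 2) - F (t - 1 / 2)) := by
    refine intervalIntegral.integral_congr fun t ht => ?_
    rw [uIcc_of_le hab] at ht
    exact e t ht
  have i1 : IntervalIntegrable (fun t => F (t + 1 / 2)) volume a b := by
    apply ContinuousOn.intervalIntegrable; rwa [uIcc_of_le hab]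
  have i2 : IntervalIntegrable (fun t => F (t - 1 / 2)) volume a b := by
    apply ContinuousOn.intervalIntegrable; rwa [uIcc_of_le hab]
  have iF : ∀ x y, A ≤ x → x ≤ B → A ≤ y → y ≤ B → IntervalIntegrable F volume x y := by
    intro x y h1 h2 h3 h4
    exact (hFc.mono (uIcc_subset_Icc ⟨h1, h2⟩ ⟨h3, h4⟩)).intervalIntegrable
  rw [e1, intervalIntegral.integral_sub i1 i2, intervalIntegral.integral_comp_add_right F,
    intervalIntegral.integral_comp_sub_right F]
  have s1 := intervalIntegral.integral_add_adjacent_intervals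
    (iF (a - 1 / 2) (a + 1 / 2) (by linarith) (by linarith) (by linarith) (by linarith))
    (iF (a + 1 / 2) (b + 1 / 2) (by linarith) (by linarith) (by linarith) (by linarith))
  have s2 := intervalIntegral.integral_add_adjacent_intervals
    (iF (a - 1 / 2) (b - 1 / 2) (by linarith) (by linarith) (by linarith) (by linarith))
    (iF (b - 1 / 2) (b + 1 / 2) (by linarith) (by linarith) (by linarith) (by linarith))
  have s3 : 0 ≤ ∫ x in (a - 1 / 2)..(a + 1 / 2), F x :=
    intervalIntegral.integral_nonneg (by linarith) fun z hz => hF0 z (by linarith [hz.1]) (by linarith [hz.2])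
  have s4 : ∫ x in (b - 1 / 2)..(b + 1 / 2), F x ≤ ∫ x in (b - 1 / 2)..(b + 1 / 2), F B := by
    refine intervalIntegral.integral_mono_on (by linarith) (iF _ _ (by linarith) (by linarith) (by linarith) (by linarith))
      intervalIntegrable_const fun z hz => ?_
    exact hmono z B (by linarith [hz.1]) (by linarith [hz.2]) le_rfl
  rw [intervalIntegral.integral_const] at s4
  have e5 : (b + 1 / 2 - (b - 1 / 2)) • F B = F B := by
    rw [show b + 1 / 2 - (b - 1 / 2) = (1 : ℝ) by ring, one_smul]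
  rw [e5] at s4
  show _ ≤ F B
  linarith

theorem dpl_cont (N : ℕ) (b : ℕ → ℂ) : Continuous (dpl N b) := by
  unfold dpl
  refine continuous_finset_sum _ fun n hn => ?_
  rw [Finset.mem_Icc] at hn
  refine continuous_const.mul ?_
  have h0 : (n : ℂ) ≠ 0 := by exact_mod_cast (by omega : n ≠ 0)
  exact Continuous.const_cpow (by fun_prop) (Or.inl h0)

theorem N2l_nonneg (N : ℕ) (b : ℕ → ℂ) : 0 ≤ N2l N b :=
  Finset.sum_nonneg fun n _ => by positivity

/-- the mean value theorem on `[T/2, 4T]` -/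
theorem mv4 (hMV : ∀ T : ℝ, 16 ≤ T → ∀ N : ℕ, (N : ℝ) ≤ T ^ (1 / 4 : ℝ) → ∀ b : ℕ → ℂ,
      ∫ t in T..(2 * T), ‖dpl N b t‖ ^ 2 ≤ 2 * T * N2l N b)
    {T : ℝ} (hT : 32 ≤ T) (N : ℕ) (hN : (N : ℝ) ≤ (T / 2) ^ (1 / 4 : ℝ))
    (b : ℕ → ℂ) : ∫ t in (T / 2)..(4 * T), ‖dpl N b t‖ ^ 2 ≤ 7 * T * N2l N b := by
  have hc : Continuous (fun t => ‖dpl N b t‖ ^ 2) := (dpl_cont N b).norm.pow 2
  have hi : ∀ a b', IntervalIntegrable (fun t => ‖dpl N b t‖ ^ 2) volume a b' := fun a b' =>
    hc.intervalIntegrable a b'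
  have hm : ∀ T', T / 2 ≤ T' → (N : ℝ) ≤ T' ^ (1 / 4 : ℝ) := fun T' h =>
    hN.trans (Real.rpow_le_rpow (by linarith) h (by norm_num))
  have h1 := hMV (T / 2) (by linarith) N (hm _ le_rfl) b
  have h2 := hMV T (by linarith) N (hm _ (by linarith)) b
  have h3 := hMV (2 * T) (by linarith) N (hm _ (by linarith)) b
  have e1 : (2 : ℝ) * (T / 2) = T := by ring
  have e2 : (2 : ℝ) * (2 * T) = 4 * T := by ring
  rw [e1] at h1
  rw [e2] at h3
  have h4 := intervalIntegral.integral_add_adjacent_intervals (hi (T / 2) T) (hi T (2 * T))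
  have h5 := intervalIntegral.integral_add_adjacent_intervals (hi (T / 2) (2 * T))
    (hi (2 * T) (4 * T))
  rw [← h5, ← h4]
  have h6 := N2l_nonneg N b
  nlinarith

/-- the sum of the reciprocals of the primes up to `X` -/
def Ap (X : ℕ) : ℝ := ∑ p ∈ (Finset.Icc 1 X).filter Nat.Prime, 1 / (p : ℝ)

theorem Ap_nonneg (X : ℕ) : 0 ≤ Ap X := Finset.sum_nonneg fun n _ => by positivity

theorem N2_cv (X : ℕ) : N2l (X * X) (cvl (prl X) (prl X)) ≤ 4 * Ap X ^ 2 := by
  -- every value of the convolution is at most 2, and it is at most the number of representations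
  have key : ∀ n : ℕ, 1 ≤ n → ‖cvl (prl X) (prl X) n‖ ^ 2 ≤
      4 * ∑ q ∈ n.divisorsAntidiagonal, (if (q.1.Prime ∧ q.1 ≤ X) ∧ (q.2.Prime ∧ q.2 ≤ X) then (1 : ℝ) else 0) := by
    intro n hn
    have e : cvl (prl X) (prl X) n = ((∑ q ∈ n.divisorsAntidiagonal,
        (if (q.1.Prime ∧ q.1 ≤ X) ∧ (q.2.Prime ∧ q.2 ≤ X) then (1 : ℝ) else 0) : ℝ) : ℂ) := by
      unfold cvl prl
      rw [Complex.ofReal_sum]
      refine Finset.sum_congr rfl fun q _ => ?_
      by_cases h1 : q.1.Prime ∧ q.1 ≤ X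
      · by_cases h2 : q.2.Prime ∧ q.2 ≤ X
        · simp [h1, h2]
        · simp [h1, h2]
      · simp [h1]
    set s := ∑ q ∈ n.divisorsAntidiagonal, (if (q.1.Prime ∧ q.1 ≤ X) ∧ (q.2.Prime ∧ q.2 ≤ X) then (1 : ℝ) else 0) with hs
    have hs0 : 0 ≤ s := Finset.sum_nonneg fun q _ => by split_ifs <;> norm_num
    have hs4 : s ≤ 4 := by
      by_cases h : ∃ q ∈ n.divisorsAntidiagonal, (q.1.Prime ∧ q.1 ≤ X) ∧ (q.2.Prime ∧ q.2 ≤ X)
      · obtain ⟨q, hq, ⟨h1, -⟩, ⟨h2, -⟩⟩ := h
        rw [Nat.mem_divisorsAntidiagonal] at hq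
        have hcard : n.divisorsAntidiagonal.card ≤ 4 := by
          have hle : n.divisorsAntidiagonal.card ≤ n.divisors.card := by
            refine Finset.card_le_card_of_injOn Prod.fst (fun x hx => ?_) (fun x hx y hy hxy => ?_)
            · rw [Finset.mem_coe, Nat.mem_divisorsAntidiagonal] at hx
              rw [Finset.mem_coe, Nat.mem_divisors]
              exact ⟨⟨x.2, hx.1.symm⟩, hx.2⟩
            · rw [Finset.mem_coe, Nat.mem_divisorsAntidiagonal] at hx hy
              have hx0 : x.1 ≠ 0 := by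
                intro h0
                rw [h0, zero_mul] at hx
                exact hx.2 hx.1.symm
              have h2 : x.1 * x.2 = x.1 * y.2 := by
                rw [hx.1, hxy, hy.1]
              exact Prod.ext hxy (Nat.eq_of_mul_eq_mul_left (Nat.pos_of_ne_zero hx0) h2)
          refine hle.trans ?_
          rw [← hq.1]
          calc (q.1 * q.2).divisors.card ≤ (q.1.divisors ×ˢ q.2.divisors).card := by
                have : (q.1 * q.2).divisors ⊆ (q.1.divisors ×ˢ q.2.divisors).image (fun x => x.1 * x.2) := by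
                  intro d hd
                  rw [Nat.mem_divisors] at hd
                  obtain ⟨a, b, ha, hb, hab⟩ := (Nat.dvd_mul).1 hd.1
                  rw [Finset.mem_image]
                  exact ⟨(a, b), Finset.mem_product.2 ⟨Nat.mem_divisors.2 ⟨ha, h1.ne_zero⟩,
                    Nat.mem_divisors.2 ⟨hb, h2.ne_zero⟩⟩, hab⟩
                exact (Finset.card_le_card this).trans Finset.card_image_le
            _ = 4 := by
                rw [Finset.card_product, h1.divisors, h2.divisors, Finset.card_pair h1.one_lt.ne,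
                  Finset.card_pair h2.one_lt.ne]
        calc s ≤ ∑ q ∈ n.divisorsAntidiagonal, (1 : ℝ) := Finset.sum_le_sum fun q _ => by split_ifs <;> norm_num
          _ = (n.divisorsAntidiagonal.card : ℝ) := by simp
          _ ≤ 4 := by exact_mod_cast hcard
      · push Not at h
        have : s = 0 := Finset.sum_eq_zero fun q hq => by
          rw [if_neg]
          intro h'
          exact absurd h'.2.2 (not_le.2 (h q hq h'.1 h'.2.1))
        rw [this]; norm_num
    rw [e, Complex.norm_real, Real.norm_of_nonneg hs0]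
    nlinarith
  unfold N2l
  calc ∑ n ∈ Finset.Icc 1 (X * X), ‖cvl (prl X) (prl X) n‖ ^ 2 / n
      ≤ ∑ n ∈ Finset.Icc 1 (X * X), 4 * ∑ q ∈ n.divisorsAntidiagonal,
          (if (q.1.Prime ∧ q.1 ≤ X) ∧ (q.2.Prime ∧ q.2 ≤ X) then 1 / ((q.1 : ℝ) * q.2) else 0) := by
        refine Finset.sum_le_sum fun n hn => ?_
        rw [Finset.mem_Icc] at hn
        have hn0 : (0 : ℝ) < n := by exact_mod_cast hn.1
        rw [div_le_iff₀ hn0]
        refine (key n hn.1).trans (le_of_eq ?_)
        rw [mul_assoc, Finset.sum_mul]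
        congr 1
        refine Finset.sum_congr rfl fun q hq => ?_
        rw [Nat.mem_divisorsAntidiagonal] at hq
        split_ifs with h
        · have : (n : ℝ) = (q.1 : ℝ) * q.2 := by rw [← hq.1]; push_cast; ring
          rw [← this]
          field_simp
        · simp
    _ = 4 * ∑ n ∈ Finset.Icc 1 (X * X), ∑ q ∈ n.divisorsAntidiagonal,
          (if (q.1.Prime ∧ q.1 ≤ X) ∧ (q.2.Prime ∧ q.2 ≤ X) then 1 / ((q.1 : ℝ) * q.2) else 0) := by
        rw [← Finset.mul_sum]
    _ ≤ 4 * Ap X ^ 2 := by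
        refine mul_le_mul_of_nonneg_left ?_ (by norm_num)
        rw [Finset.sum_sigma']
        have e2 : Ap X ^ 2 = ∑ q ∈ ((Finset.Icc 1 X).filter Nat.Prime) ×ˢ ((Finset.Icc 1 X).filter Nat.Prime),
            1 / ((q.1 : ℝ) * q.2) := by
          rw [Finset.sum_product, sq]
          unfold Ap
          rw [Finset.sum_mul_sum]
          refine Finset.sum_congr rfl fun a _ => Finset.sum_congr rfl fun b _ => ?_
          rw [one_div_mul_one_div]
        rw [e2, ← Finset.sum_filter]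
        rw [← Finset.sum_image (s := Finset.filter (fun x : (_ : ℕ) × ℕ × ℕ => (x.2.1.Prime ∧ x.2.1 ≤ X) ∧ (x.2.2.Prime ∧ x.2.2 ≤ X))
          ((Finset.Icc 1 (X * X)).sigma fun n => n.divisorsAntidiagonal)) (g := fun x : (_ : ℕ) × ℕ × ℕ => x.2)
          (f := fun q : ℕ × ℕ => 1 / ((q.1 : ℝ) * q.2))]
        · refine Finset.sum_le_sum_of_subset_of_nonneg ?_ ?_
          · intro y hy
            rw [Finset.mem_image] at hy
            obtain ⟨x, hx, rfl⟩ := hy
            rw [Finset.mem_filter, Finset.mem_sigma] at hx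
            rw [Finset.mem_product, Finset.mem_filter, Finset.mem_filter, Finset.mem_Icc, Finset.mem_Icc]
            exact ⟨⟨⟨hx.2.1.1.one_lt.le, hx.2.1.2⟩, hx.2.1.1⟩, ⟨⟨hx.2.2.1.one_lt.le, hx.2.2.2⟩, hx.2.2.1⟩⟩
          · intro x _ _
            positivity
        · intro x hx y hy hxy
          rw [Finset.mem_coe, Finset.mem_filter, Finset.mem_sigma, Nat.mem_divisorsAntidiagonal] at hx hy
          have hxy' : x.2 = y.2 := hxy
          have : x.1 = y.1 := by rw [← hx.1.2.1, ← hy.1.2.1, hxy']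
          exact Sigma.ext this (heq_of_eq hxy')

end

end Pool.Agent.U858.MV2
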