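import Pool.Agent.U858.MV2.Core
import Pool.Agent.U398.MV.Stm2

set_option autoImplicit false

/-!
U858.MV2: moments of the argument of zeta, abstract part (package SB of project MV2): Dirichlet polynomials over primes.
-/

namespace Pool.Agent.U858.MV2

open MeasureTheory Filter Topology Set Complex

noncomputable section

theorem dpl_mul (N M : ℕ) (b c : ℕ → ℂ) (t : ℝ) (hb : ∀ n, N < n → b n = 0)
    (hc : ∀ n, M < n → c n = 0) : dpl N b t * dpl M c t = dpl (N * M) (cvl b c) t := by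
  unfold dpl cvl
  rw [Finset.sum_mul_sum, ← Finset.sum_product']
  rw [← Finset.sum_fiberwise_of_maps_to (t := Finset.Icc 1 (N * M)) (g := fun p : ℕ × ℕ => p.1 * p.2)]
  · refine Finset.sum_congr rfl fun n hn => ?_
    rw [Finset.mem_Icc] at hn
    rw [Finset.sum_mul]
    refine Finset.sum_subset_zero_on_sdiff ?_ ?_ ?_
    · intro p hp
      rw [Finset.mem_filter] at hp
      rw [Nat.mem_divisorsAntidiagonal]
      exact ⟨hp.2, by omega⟩
    · intro p hp
      rw [Finset.mem_sdiff, Nat.mem_divisorsAntidiagonal, Finset.mem_filter, Finset.mem_product,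
        Finset.mem_Icc, Finset.mem_Icc] at hp
      obtain ⟨⟨h1, h2⟩, h3⟩ := hp
      have h4 : p.1 ≠ 0 := by rintro h; rw [h] at h1; simp at h1; omega
      have h5 : p.2 ≠ 0 := by rintro h; rw [h] at h1; simp at h1; omega
      by_cases h6 : N < p.1
      · rw [hb _ h6]; ring
      · by_cases h7 : M < p.2
        · rw [hc _ h7]; ring
        · exact absurd ⟨⟨⟨by omega, by omega⟩, ⟨by omega, by omega⟩⟩, h1⟩ h3
    · intro p hp
      rw [Finset.mem_filter] at hp
      have h : (n : ℂ) ^ (-(1 / 2 + (t : ℂ) * I)) =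
          (p.1 : ℂ) ^ (-(1 / 2 + (t : ℂ) * I)) * (p.2 : ℂ) ^ (-(1 / 2 + (t : ℂ) * I)) := by
        rw [← hp.2, Nat.cast_mul, Complex.natCast_mul_natCast_cpow]
      rw [h]
      ring
  · intro p hp
    rw [Finset.mem_product, Finset.mem_Icc, Finset.mem_Icc] at hp
    rw [Finset.mem_Icc]
    exact ⟨Nat.mul_pos (by omega) (by omega), Nat.mul_le_mul hp.1.2 hp.2.2⟩

theorem prl_zero {X n : ℕ} (h : X < n) : prl X n = 0 := by
  unfold prl
  rw [if_neg]
  rintro ⟨-, h2⟩
  omega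

theorem four_eq (X : ℕ) (t : ℝ) : ‖dpl X (prl X) t‖ ^ 4 = ‖dpl (X * X) (cvl (prl X) (prl X)) t‖ ^ 2 := by
  rw [← dpl_mul X X _ _ t (fun n hn => prl_zero hn) (fun n hn => prl_zero hn), norm_mul]
  ring

/-- squares of primes -/
theorem sum_sql (X : ℕ) {g : ℕ → ℝ} (hg : ∀ n, 0 ≤ g n) :
    ∑ n ∈ Finset.Icc 1 (X ^ 2), ‖sql X n‖ * g n ≤ ∑ p ∈ (Finset.Icc 1 X).filter Nat.Prime, g (p ^ 2) := by
  classical
  have e : ∀ n, ‖sql X n‖ * g n = if ∃ p : ℕ, p.Prime ∧ p ≤ X ∧ n = p ^ 2 then g n else 0 := by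
    intro n
    unfold sql
    split_ifs <;> simp
  rw [Finset.sum_congr rfl fun n _ => e n, ← Finset.sum_filter]
  have hinj : Set.InjOn (fun p : ℕ => p ^ 2) ((Finset.Icc 1 X).filter Nat.Prime : Set ℕ) :=
    fun p _ q _ h => Nat.pow_left_injective (n := 2) (by norm_num) h
  rw [← Finset.sum_image (f := g) (g := fun p : ℕ => p ^ 2) hinj]
  refine Finset.sum_le_sum_of_subset_of_nonneg ?_ fun n _ _ => hg n
  intro n hn
  rw [Finset.mem_filter] at hn
  obtain ⟨-, p, hp, hpX, rfl⟩ := hn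
  rw [Finset.mem_image]
  exact ⟨p, Finset.mem_filter.2 ⟨Finset.mem_Icc.2 ⟨hp.one_lt.le, hpX⟩, hp⟩, rfl⟩

theorem sql_norm_sq (X n : ℕ) : ‖sql X n‖ ^ 2 = ‖sql X n‖ := by
  unfold sql
  split_ifs <;> simp

theorem sum_inv_sq_le (X : ℕ) : ∑ p ∈ (Finset.Icc 1 X).filter Nat.Prime, 1 / ((p ^ 2 : ℕ) : ℝ) ≤ 2 := by
  have h1 : ∀ N : ℕ, 1 ≤ N → ∑ n ∈ Finset.Icc 1 N, 1 / ((n ^ 2 : ℕ) : ℝ) ≤ 2 - 1 / (N : ℝ) := by
    intro N hN
    induction N, hN using Nat.le_induction with
    | base => norm_num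
    | succ k hk ih =>
      rw [Finset.sum_Icc_succ_top (by omega)]
      have hk0 : (0 : ℝ) < k := by exact_mod_cast hk
      have h2 : 1 / (((k + 1) ^ 2 : ℕ) : ℝ) ≤ 1 / (k : ℝ) - 1 / ((k : ℝ) + 1) := by
        push_cast
        rw [div_sub_div _ _ hk0.ne' (by positivity), div_le_div_iff₀ (by positivity) (by positivity)]
        nlinarith
      push_cast at h2 ih ⊢
      linarith
  rcases Nat.eq_zero_or_pos X with h0 | h0
  · subst h0
    simp
  · calc ∑ p ∈ (Finset.Icc 1 X).filter Nat.Prime, 1 / ((p ^ 2 : ℕ) : ℝ) ≤ ∑ n ∈ Finset.Icc 1 X, 1 / ((n ^ 2 : ℕ) : ℝ) :=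
          Finset.sum_le_sum_of_subset_of_nonneg (Finset.filter_subset _ _) fun n _ _ => by positivity
      _ ≤ 2 - 1 / (X : ℝ) := h1 X h0
      _ ≤ 2 := by
          have : 0 ≤ 1 / (X : ℝ) := by positivity
          linarith

theorem N2_sql (X : ℕ) : N2l (X ^ 2) (sql X) ≤ 2 := by
  unfold N2l
  have e : ∀ n, ‖sql X n‖ ^ 2 / n = ‖sql X n‖ * (1 / (n : ℝ)) := fun n => by
    rw [sql_norm_sq, mul_one_div]
  rw [Finset.sum_congr rfl fun n _ => e n]
  exact (sum_sql X fun n => by positivity).trans (sum_inv_sq_le X)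

theorem dpl_sql (X : ℕ) (t : ℝ) : ‖dpl (X ^ 2) (sql X) t‖ ≤ Ap X := by
  unfold dpl
  refine (norm_sum_le _ _).trans ?_
  have e : ∀ n ∈ Finset.Icc 1 (X ^ 2), ‖sql X n * (n : ℂ) ^ (-(1 / 2 + (t : ℂ) * I))‖ = ‖sql X n‖ * (Real.sqrt n)⁻¹ := by
    intro n hn
    rw [Finset.mem_Icc] at hn
    rw [norm_mul, Complex.norm_natCast_cpow_of_pos (by omega)]
    have h : (-(1 / 2 + (t : ℂ) * I)).re = -(1 / 2 : ℝ) := by simp
    rw [h, Real.rpow_neg (Nat.cast_nonneg n), Real.sqrt_eq_rpow]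
  rw [Finset.sum_congr rfl e]
  refine (sum_sql X fun n => by positivity).trans (le_of_eq ?_)
  unfold Ap
  refine Finset.sum_congr rfl fun p _ => ?_
  rw [Nat.cast_pow, Real.sqrt_sq (Nat.cast_nonneg p), one_div]

/-- the averaged coefficient -/
def cc (n : ℕ) : ℝ := 2 * Real.sin (Real.log n / 2) / Real.log n

theorem avg_pow {n : ℕ} (hn : 2 ≤ n) (t : ℝ) :
    ∫ y in (t - 1 / 2)..(t + 1 / 2), (n : ℂ) ^ (-(1 / 2 + (y : ℂ) * I)) =
      (cc n : ℂ) * (n : ℂ) ^ (-(1 / 2 + (t : ℂ) * I)) := by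
  have hn0 : (n : ℂ) ≠ 0 := by exact_mod_cast (by omega : n ≠ 0)
  have hl : 0 < Real.log n := Real.log_pos (by exact_mod_cast (by omega : 1 < n))
  set l := Real.log n with hld
  have hlog : Complex.log (n : ℂ) = (l : ℂ) := by
    rw [hld, Complex.natCast_log]
  have hlc : (l : ℂ) ≠ 0 := by exact_mod_cast hl.ne'
  have hexp : ∀ y : ℝ, (n : ℂ) ^ (-(1 / 2 + (y : ℂ) * I)) = cexp (-(1 / 2 + (y : ℂ) * I) * l) := by
    intro y
    rw [Complex.cpow_def_of_ne_zero hn0, hlog, mul_comm]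
  have hder : ∀ y : ℝ, HasDerivAt (fun y : ℝ => cexp (-(1 / 2 + (y : ℂ) * I) * l) * (I / l))
      (cexp (-(1 / 2 + (y : ℂ) * I) * l)) y := by
    intro y
    have h1 : HasDerivAt (fun y : ℝ => -(1 / 2 + (y : ℂ) * I) * l) (-(I) * l) y := by
      have h0 : HasDerivAt (fun y : ℝ => (y : ℂ)) 1 y := Complex.ofRealCLM.hasDerivAt
      have h2 := (((h0.mul_const I).const_add (1 / 2 : ℂ)).neg).mul_const (l : ℂ)
      simpa using h2
    have h3 := (h1.cexp).mul_const (I / (l : ℂ))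
    have h7 : (-I * (l : ℂ)) * (I / l) = 1 := by
      field_simp
      rw [Complex.I_sq]
      ring
    rw [mul_assoc, h7, mul_one] at h3
    exact h3
  have hI : ∫ y in (t - 1 / 2)..(t + 1 / 2), cexp (-(1 / 2 + (y : ℂ) * I) * l) =
      cexp (-(1 / 2 + ((t + 1 / 2 : ℝ) : ℂ) * I) * l) * (I / l) - cexp (-(1 / 2 + ((t - 1 / 2 : ℝ) : ℂ) * I) * l) * (I / l) := by
    refine intervalIntegral.integral_eq_sub_of_hasDerivAt (fun y _ => hder y) ?_
    apply Continuous.intervalIntegrable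
    fun_prop
  rw [intervalIntegral.integral_congr fun y _ => hexp y, hI, hexp t]
  have e1 : cexp (-(1 / 2 + ((t + 1 / 2 : ℝ) : ℂ) * I) * l) = cexp (-(1 / 2 + (t : ℂ) * I) * l) * cexp (-(l / 2 : ℂ) * I) := by
    rw [← Complex.exp_add]
    congr 1
    push_cast
    ring
  have e2 : cexp (-(1 / 2 + ((t - 1 / 2 : ℝ) : ℂ) * I) * l) = cexp (-(1 / 2 + (t : ℂ) * I) * l) * cexp ((l / 2 : ℂ) * I) := by
    rw [← Complex.exp_add]
    congr 1
    push_cast
    ring
  rw [e1, e2]
  have e3 : ((cc n : ℝ) : ℂ) = 2 * Complex.sin (l / 2) / l := by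
    unfold cc
    rw [← hld]
    push_cast
    ring
  rw [e3]
  have e4 : 2 * Complex.sin ((l : ℂ) / 2) = (cexp (-(l / 2 : ℂ) * I) - cexp ((l / 2 : ℂ) * I)) * I := by
    rw [Complex.sin]
    ring
  rw [e4]
  ring

theorem avg_dpl (X : ℕ) (t : ℝ) :
    ∫ y in (t - 1 / 2)..(t + 1 / 2), dpl X (prl X) y = dpl X (fun n => prl X n * cc n) t := by
  unfold dpl
  rw [intervalIntegral.integral_finsetSum]
  · refine Finset.sum_congr rfl fun n hn => ?_
    rw [intervalIntegral.integral_const_mul]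
    by_cases h : n.Prime ∧ n ≤ X
    · rw [avg_pow h.1.two_le t]
      ring
    · have h8 : prl X n = 0 := by unfold prl; rw [if_neg h]
      simp [h8]
  · intro n hn
    apply Continuous.intervalIntegrable
    rw [Finset.mem_Icc] at hn
    refine continuous_const.mul ?_
    have h0 : (n : ℂ) ≠ 0 := by exact_mod_cast (by omega : n ≠ 0)
    exact Continuous.const_cpow (by fun_prop) (Or.inl h0)

/-- the Fejer identity -/
theorem fej {a : ℝ} (ha : a ≠ 0) : (2 * Real.sin (a / 2) / a) ^ 2 = 2 * ∫ y in (0 : ℝ)..1, (1 - y) * Real.cos (y * a) := by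
  have hder : ∀ y : ℝ, HasDerivAt (fun y : ℝ => (1 - y) * (Real.sin (y * a) / a) - Real.cos (y * a) / a ^ 2)
      ((1 - y) * Real.cos (y * a)) y := by
    intro y
    have h0 : HasDerivAt (fun y : ℝ => y * a) a y := by simpa using (hasDerivAt_id y).mul_const a
    have h1 := h0.sin
    have h2 := h0.cos
    have h3 : HasDerivAt (fun y : ℝ => 1 - y) (-1) y := by simpa using (hasDerivAt_id y).const_sub 1
    have h4 := (h3.mul (h1.div_const a)).sub (h2.div_const (a ^ 2))
    refine h4.congr_deriv ?_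
    field_simp
    ring
  have hI : ∫ y in (0 : ℝ)..1, (1 - y) * Real.cos (y * a) =
      ((1 - 1) * (Real.sin (1 * a) / a) - Real.cos (1 * a) / a ^ 2) - ((1 - 0) * (Real.sin (0 * a) / a) - Real.cos (0 * a) / a ^ 2) := by
    refine intervalIntegral.integral_eq_sub_of_hasDerivAt (fun y _ => hder y) ?_
    apply Continuous.intervalIntegrable
    fun_prop
  rw [hI]
  have h5 : Real.cos a = 1 - 2 * Real.sin (a / 2) ^ 2 := by
    have := Real.cos_two_mul (a / 2)
    rw [show 2 * (a / 2) = a by ring] at this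
    have h6 := Real.sin_sq_add_cos_sq (a / 2)
    nlinarith
  simp only [one_mul, zero_mul, Real.sin_zero, Real.cos_zero, sub_self, zero_div, mul_zero, zero_sub]
  rw [h5]
  field_simp
  ring

/-- the mean square of the averaged prime polynomial is bounded -/
theorem N2_avg (hPR : Pool.Agent.U398.MV.S_PR) : ∃ K : ℝ, 0 < K ∧ ∀ X : ℕ, 3 ≤ X → N2l X (fun n => prl X n * cc n) ≤ K := by
  obtain ⟨C, hC, h⟩ := hPR
  refine ⟨2 * (C + 1), by positivity, fun X hX => ?_⟩
  have hX' : (3 : ℝ) ≤ (X : ℝ) := by exact_mod_cast hX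
  have hlX : 1 ≤ Real.log X := by
    rw [Real.le_log_iff_exp_le (by linarith)]
    linarith [Real.exp_one_lt_d9]
  have e1 : N2l X (fun n => prl X n * cc n) = ∑ p ∈ (Finset.Icc 1 X).filter Nat.Prime, 1 / (p : ℝ) * cc p ^ 2 := by
    unfold N2l
    rw [Finset.sum_filter]
    refine Finset.sum_congr rfl fun n hn => ?_
    rw [Finset.mem_Icc] at hn
    by_cases hp : Nat.Prime n
    · have h8 : prl X n = 1 := by unfold prl; exact if_pos ⟨hp, hn.2⟩
      rw [if_pos hp]
      show ‖prl X n * (cc n : ℂ)‖ ^ 2 / (n : ℝ) = _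
      rw [h8, one_mul, Complex.norm_real, Real.norm_eq_abs, sq_abs]
      ring
    · have h8 : prl X n = 0 := by unfold prl; exact if_neg fun h9 => hp h9.1
      rw [if_neg hp]
      show ‖prl X n * (cc n : ℂ)‖ ^ 2 / (n : ℝ) = _
      rw [h8]
      simp
  have e2 : ∑ p ∈ (Finset.Icc 1 X).filter Nat.Prime, 1 / (p : ℝ) * cc p ^ 2 =
      2 * ∫ y in (0 : ℝ)..1, (1 - y) * ∑ p ∈ (Finset.Icc 1 X).filter Nat.Prime, Real.cos (y * Real.log p) / p := by
    have e3 : ∀ p ∈ (Finset.Icc 1 X).filter Nat.Prime, 1 / (p : ℝ) * cc p ^ 2 =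
        2 * ∫ y in (0 : ℝ)..1, (1 - y) * (Real.cos (y * Real.log p) / p) := by
      intro p hp
      have hp' := (Finset.mem_filter.1 hp).2
      have hl : Real.log p ≠ 0 := (Real.log_pos (by exact_mod_cast hp'.one_lt)).ne'
      unfold cc
      rw [fej hl]
      have : (fun y : ℝ => (1 - y) * (Real.cos (y * Real.log p) / p)) = fun y => 1 / (p : ℝ) * ((1 - y) * Real.cos (y * Real.log p)) := by
        funext y; ring
      rw [this, intervalIntegral.integral_const_mul]
      ring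
    rw [Finset.sum_congr rfl e3, ← Finset.mul_sum, ← intervalIntegral.integral_finsetSum]
    · congr 1
      refine intervalIntegral.integral_congr fun y _ => ?_
      show ∑ p ∈ _, _ = (1 - y) * _
      rw [Finset.mul_sum]
    · intro p _
      apply Continuous.intervalIntegrable
      fun_prop
  rw [e1, e2]
  refine mul_le_mul_of_nonneg_left ?_ (by norm_num)
  have hii : IntervalIntegrable (fun y : ℝ => C - Real.log y) volume 0 1 :=
    intervalIntegrable_const.sub intervalIntegral.intervalIntegrable_log'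
  have h1 : ∫ y in (0 : ℝ)..1, (1 - y) * ∑ p ∈ (Finset.Icc 1 X).filter Nat.Prime, Real.cos (y * Real.log p) / p ≤
      ∫ y in (0 : ℝ)..1, (C - Real.log y) := by
    refine intervalIntegral.integral_mono_on_of_le_Ioo (by norm_num) ?_ hii ?_
    · apply Continuous.intervalIntegrable
      fun_prop
    · intro y hy
      have h2 := h X hX' y hy.1.le hy.2.le
      rw [Nat.floor_natCast] at h2
      rw [abs_le] at h2
      have h3 : Real.log y ≤ Real.log (max (1 / Real.log X) y) := Real.log_le_log hy.1 (le_max_right _ _)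
      have h4 : Real.log y ≤ 0 := Real.log_nonpos hy.1.le hy.2.le
      have h5 : ∑ p ∈ (Finset.Icc 1 X).filter Nat.Prime, Real.cos (y * Real.log p) / p ≤ C - Real.log y := by linarith [h2.2]
      calc (1 - y) * ∑ p ∈ (Finset.Icc 1 X).filter Nat.Prime, Real.cos (y * Real.log p) / p
          ≤ (1 - y) * (C - Real.log y) := mul_le_mul_of_nonneg_left h5 (by linarith [hy.2])
        _ ≤ 1 * (C - Real.log y) := mul_le_mul_of_nonneg_right (by linarith [hy.1]) (by linarith)
        _ = _ := one_mul _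
  refine h1.trans (le_of_eq ?_)
  rw [intervalIntegral.integral_sub intervalIntegrable_const intervalIntegral.intervalIntegrable_log',
    intervalIntegral.integral_const, integral_log]
  simp

theorem Ap_le (hPR : Pool.Agent.U398.MV.S_PR) : ∃ K : ℝ, 0 < K ∧ ∀ X : ℕ, 3 ≤ X → Ap X ≤ Real.log (Real.log X) + K := by
  obtain ⟨C, hC, h⟩ := hPR
  refine ⟨C, hC, fun X hX => ?_⟩
  have hX' : (3 : ℝ) ≤ (X : ℝ) := by exact_mod_cast hX
  have hlX : 1 ≤ Real.log X := by
    rw [Real.le_log_iff_exp_le (by linarith)]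
    linarith [Real.exp_one_lt_d9]
  have h2 := h X hX' 0 le_rfl zero_le_one
  rw [Nat.floor_natCast, max_eq_left (by positivity), one_div, Real.log_inv] at h2
  have e : ∑ p ∈ (Finset.Icc 1 X).filter Nat.Prime, Real.cos (0 * Real.log p) / p = Ap X := by
    unfold Ap
    refine Finset.sum_congr rfl fun p _ => ?_
    rw [zero_mul, Real.cos_zero]
  rw [e, abs_le] at h2
  linarith [h2.2]

end

end Pool.Agent.U858.MV2
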