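import Pool.Agent.U858.MV2.Core2

set_option autoImplicit false

/-!
U858.MV2: moments of the argument of zeta, abstract part (package SB of project MV2): assembly.
-/

namespace Pool.Agent.U858.MV2

open MeasureTheory Filter Topology Set Complex

noncomputable section

theorem window_cont {h : ℝ → ℝ} {a b A B : ℝ} (hA : A + 1 / 2 ≤ a) (hab : a ≤ b) (hB : b + 1 / 2 ≤ B)
    (hi : IntervalIntegrable h volume A B) :
    ContinuousOn (fun t => ∫ y in (t - 1 / 2)..(t + 1 / 2), h y) (Icc a b) := by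
  have hAB : A ≤ B := by linarith
  have hsub : ∀ {x y : ℝ}, A ≤ x → x ≤ B → A ≤ y → y ≤ B → IntervalIntegrable h volume x y := by
    intro x y hx1 hx2 hy1 hy2
    refine hi.mono_set ?_
    rw [uIcc_of_le hAB]
    exact uIcc_subset_Icc ⟨hx1, hx2⟩ ⟨hy1, hy2⟩
  set F : ℝ → ℝ := fun t => ∫ y in A..t, h y with hF
  have hFc : ContinuousOn F (Icc A B) := by
    have := intervalIntegral.continuousOn_primitive_interval' (μ := volume) (f := h) (b₁ := A) (b₂ := B) (a := A) hi
      (by rw [uIcc_of_le hAB]; exact ⟨le_rfl, hAB⟩)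
    rwa [uIcc_of_le hAB] at this
  have e : ∀ t ∈ Icc a b, ∫ y in (t - 1 / 2)..(t + 1 / 2), h y = F (t + 1 / 2) - F (t - 1 / 2) := by
    intro t ht
    rw [hF]
    simp only
    rw [intervalIntegral.integral_interval_sub_left (hsub le_rfl hAB (by linarith [ht.1]) (by linarith [ht.2]))
      (hsub le_rfl hAB (by linarith [ht.1]) (by linarith [ht.2]))]
  have c1 : ContinuousOn (fun t => F (t + 1 / 2)) (Icc a b) :=
    hFc.comp (by fun_prop) fun t ht => ⟨by linarith [ht.1], by linarith [ht.2]⟩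
  have c2 : ContinuousOn (fun t => F (t - 1 / 2)) (Icc a b) :=
    hFc.comp (by fun_prop) fun t ht => ⟨by linarith [ht.1], by linarith [ht.2]⟩
  exact (c1.sub c2).congr e

theorem growth (δ K : ℝ) (hδ : 0 < δ) (hδ' : δ ≤ 1 / 16) : ∀ᶠ T : ℝ in atTop,
    32 ≤ T ∧ 3 ≤ ⌊T ^ δ⌋₊ ∧ ((⌊T ^ δ⌋₊ * ⌊T ^ δ⌋₊ : ℕ) : ℝ) ≤ (T / 2) ^ (1 / 4 : ℝ) ∧
    Real.log (Real.log ⌊T ^ δ⌋₊) + K ≤ Real.log (Real.log T) + K ∧
    1 ≤ Real.log (Real.log T) + K ∧ (Real.log (Real.log T) + K) ^ 4 ≤ Real.log T := by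
  have h1 : Tendsto (fun T : ℝ => T ^ δ) atTop atTop := tendsto_rpow_atTop hδ
  have h2 : Tendsto (fun T : ℝ => Real.log T) atTop atTop := Real.tendsto_log_atTop
  have h3 : Tendsto (fun T : ℝ => Real.log (Real.log T)) atTop atTop := h2.comp h2
  have h4 : ∀ᶠ x : ℝ in atTop, (2 * Real.log x) ^ 4 ≤ x := by
    have h5 := Real.isLittleO_pow_log_id_atTop (n := 4)
    have h6 := h5.bound (show (0 : ℝ) < 1 / 16 by norm_num)
    filter_upwards [h6, eventually_ge_atTop (1 : ℝ)] with x hx hx1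
    rw [id, Real.norm_of_nonneg (by positivity), Real.norm_of_nonneg (by linarith)] at hx
    calc (2 * Real.log x) ^ 4 = 16 * Real.log x ^ 4 := by ring
      _ ≤ 16 * (1 / 16 * x) := by linarith
      _ = x := by ring
  filter_upwards [eventually_ge_atTop (32 : ℝ), h1.eventually_ge_atTop 3, h3.eventually_ge_atTop (1 + |K|),
    h2.eventually h4] with T hT hX hll h5
  have hT0 : 0 < T := by linarith
  have hfl : ((⌊T ^ δ⌋₊ : ℕ) : ℝ) ≤ T ^ δ := Nat.floor_le (by positivity)
  have hX3 : 3 ≤ ⌊T ^ δ⌋₊ := Nat.le_floor (by exact_mod_cast hX)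
  have hX3' : (3 : ℝ) ≤ ((⌊T ^ δ⌋₊ : ℕ) : ℝ) := by exact_mod_cast hX3
  refine ⟨hT, hX3, ?_, ?_, ?_, ?_⟩
  · push_cast
    calc ((⌊T ^ δ⌋₊ : ℕ) : ℝ) * ⌊T ^ δ⌋₊ ≤ T ^ δ * T ^ δ := mul_le_mul hfl hfl (by positivity) (by positivity)
      _ = T ^ (δ + δ) := (Real.rpow_add hT0 _ _).symm
      _ ≤ T ^ (1 / 8 : ℝ) := Real.rpow_le_rpow_of_exponent_le (by linarith) (by linarith)
      _ ≤ (T / 2) ^ (1 / 4 : ℝ) := by
          have e : T ^ (1 / 8 : ℝ) = (T ^ (1 / 2 : ℝ)) ^ (1 / 4 : ℝ) := by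
            rw [← Real.rpow_mul hT0.le]; norm_num
          rw [e]
          refine Real.rpow_le_rpow (by positivity) ?_ (by norm_num)
          rw [← Real.sqrt_eq_rpow]
          rw [Real.sqrt_le_left (by positivity)]
          nlinarith
  · have h7 : Real.log ⌊T ^ δ⌋₊ ≤ Real.log T := by
      refine Real.log_le_log (by linarith) (hfl.trans ?_)
      calc T ^ δ ≤ T ^ (1 : ℝ) := Real.rpow_le_rpow_of_exponent_le (by linarith) (by linarith)
        _ = T := Real.rpow_one T
    have h8 : 0 < Real.log ⌊T ^ δ⌋₊ := Real.log_pos (by linarith)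
    linarith [Real.log_le_log h8 h7]
  · linarith [neg_abs_le K]
  · refine le_trans ?_ h5
    refine pow_le_pow_left₀ (by linarith [neg_abs_le K]) ?_ 4
    linarith [le_abs_self K]

theorem core {f : ℝ → ℝ} {LI : ℕ → ℝ → ℝ} (hf : Measurable f)
    (hMV : ∀ T : ℝ, 16 ≤ T → ∀ N : ℕ, (N : ℝ) ≤ T ^ (1 / 4 : ℝ) → ∀ b : ℕ → ℂ,
      ∫ t in T..(2 * T), ‖dpl N b t‖ ^ 2 ≤ 2 * T * N2l N b)
    (hPR : Pool.Agent.U398.MV.S_PR) {δ C B : ℝ} (hδ : 0 < δ) (hδ' : δ ≤ 1 / 16) (hC : 0 ≤ C) (_hB : 0 ≤ B)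
    (hLI : ∀ X t, |LI X t - (dpl X (prl X) t).im - (dpl (X ^ 2) (sql X) t).im / 2| ≤ B)
    (hTH : ∀ᶠ T : ℝ in atTop, IntervalIntegrable (fun t => |f t - LI ⌊T ^ δ⌋₊ t| ^ 4) volume (T / 2) (4 * T) ∧
      ∫ t in (T / 2)..(4 * T), |f t - LI ⌊T ^ δ⌋₊ t| ^ 4 ≤ C * T) :
    ∃ K T0 : ℝ, 0 < K ∧ 10 ≤ T0 ∧ ∀ T : ℝ, T0 ≤ T → IntegrableOn (fun t => f t ^ 4) (Icc (T / 2) (3 * T)) ∧
      (∫ t in (T / 2)..(3 * T), f t ^ 4) ≤ K * (T * Real.log T) ∧
      (∫ t in T..(2 * T), (∫ y in (t - 1 / 2)..(t + 1 / 2), f y) ^ 2) ≤ K * T := by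
  obtain ⟨K1, hK1, hN2⟩ := N2_avg hPR
  obtain ⟨K2, hK2, hAp⟩ := Ap_le hPR
  obtain ⟨T1, hT1⟩ := Filter.eventually_atTop.1 (hTH.and (growth δ K2 hδ hδ'))
  obtain ⟨C1, hC1⟩ : ∃ C1 : ℝ, C1 = 8 * C + 28 * B ^ 4 := ⟨_, rfl⟩
  have hC10 : 0 ≤ C1 := by rw [hC1]; positivity
  refine ⟨27 * (C1 + 32) + 28 + 4 * C1 + 4 * K1, max T1 10, by positivity, le_max_right _ _, fun T hT => ?_⟩
  obtain ⟨⟨hI, hIb⟩, hT32, hX3, hXX, hll, hA1, hA4⟩ := hT1 T ((le_max_left _ _).trans hT)
  clear hT1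
  have hT0 : 0 < T := by linarith
  have hle : T / 2 ≤ 4 * T := by linarith
  set X := ⌊T ^ δ⌋₊ with hXd
  set G : ℝ → ℝ := fun t => (dpl X (prl X) t).im with hG
  set H : ℝ → ℝ := fun t => (dpl (X ^ 2) (sql X) t).im / 2 with hH
  set E : ℝ → ℝ := fun t => f t - G t - H t with hE
  have cG : Continuous G := Complex.continuous_im.comp (dpl_cont _ _)
  have cH : Continuous H := (Complex.continuous_im.comp (dpl_cont _ _)).div_const _
  have mE : Measurable E := (hf.sub cG.measurable).sub cH.measurable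
  have hEb : ∀ t, E t ^ 4 ≤ 8 * (|f t - LI X t| ^ 4 + B ^ 4) := by
    intro t
    have h1 : |E t| ≤ |f t - LI X t| + B := by
      have h2 : E t = (f t - LI X t) + (LI X t - (dpl X (prl X) t).im - (dpl (X ^ 2) (sql X) t).im / 2) := by
        simp only [hE, hG, hH]
        ring
      rw [h2]
      exact (abs_add_le _ _).trans (add_le_add_right (hLI X t) _)
    calc E t ^ 4 = |E t| ^ 4 := by rw [← abs_pow, abs_of_nonneg (by positivity)]
      _ ≤ (|f t - LI X t| + B) ^ 4 := pow_le_pow_left₀ (abs_nonneg _) h1 4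
      _ ≤ _ := four2 _ _
  have iR : IntervalIntegrable (fun t => 8 * (|f t - LI X t| ^ 4 + B ^ 4)) volume (T / 2) (4 * T) :=
    (hI.add intervalIntegrable_const).const_mul 8
  have iE : IntervalIntegrable (fun t => E t ^ 4) volume (T / 2) (4 * T) := by
    refine iR.mono_fun' (mE.pow_const 4).aestronglyMeasurable (Eventually.of_forall fun t => ?_)
    simp only
    rw [Real.norm_of_nonneg (by positivity)]
    exact hEb t
  have bE : ∫ t in (T / 2)..(4 * T), E t ^ 4 ≤ C1 * T := by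
    refine (intervalIntegral.integral_mono hle iE iR hEb).trans ?_
    rw [intervalIntegral.integral_const_mul, intervalIntegral.integral_add hI intervalIntegrable_const,
      intervalIntegral.integral_const, smul_eq_mul, hC1]
    nlinarith
  -- the size of the prime sums
  have hA0 := Ap_nonneg X
  have hA : Ap X ≤ Real.log (Real.log T) + K2 := (hAp X hX3).trans hll
  obtain ⟨A, hAd⟩ : ∃ A : ℝ, A = Real.log (Real.log T) + K2 := ⟨_, rfl⟩
  rw [← hAd] at hA hA1 hA4
  have hA2 : A ^ 2 ≤ Real.log T := by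
    refine le_trans ?_ hA4
    exact pow_le_pow_right₀ hA1 (by norm_num)
  have hL1 : 1 ≤ Real.log T := le_trans (one_le_pow₀ hA1) hA4
  have hXX2 : ((X ^ 2 : ℕ) : ℝ) ≤ (T / 2) ^ (1 / 4 : ℝ) := by rw [sq]; exact hXX
  -- the fourth moment
  have cP : Continuous fun t => ‖dpl (X * X) (cvl (prl X) (prl X)) t‖ ^ 2 := (dpl_cont _ _).norm.pow 2
  have bP := mv4 hMV hT32 (X * X) hXX (cvl (prl X) (prl X))
  have hP2 := N2_cv X
  have bP2 : ∫ t in (T / 2)..(4 * T), ‖dpl (X * X) (cvl (prl X) (prl X)) t‖ ^ 2 ≤ 28 * (T * Real.log T) := by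
    refine bP.trans ?_
    have h1 : Ap X ^ 2 ≤ Real.log T := (pow_le_pow_left₀ hA0 hA 2).trans hA2
    have h2 : N2l (X * X) (cvl (prl X) (prl X)) ≤ 4 * Real.log T := by linarith
    calc 7 * T * N2l (X * X) (cvl (prl X) (prl X)) ≤ 7 * T * (4 * Real.log T) :=
          mul_le_mul_of_nonneg_left h2 (by positivity)
      _ = _ := by ring
  have hf4 : ∀ t, f t ^ 4 ≤ 27 * (E t ^ 4 + ‖dpl (X * X) (cvl (prl X) (prl X)) t‖ ^ 2 + Real.log T) := by
    intro t
    have e1 : f t = E t + G t + H t := by simp only [hE]; ring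
    have h1 : G t ^ 4 ≤ ‖dpl (X * X) (cvl (prl X) (prl X)) t‖ ^ 2 := by
      rw [← four_eq]
      have h2 : |G t| ≤ ‖dpl X (prl X) t‖ := Complex.abs_im_le_norm _
      calc G t ^ 4 = |G t| ^ 4 := by rw [← abs_pow, abs_of_nonneg (by positivity)]
        _ ≤ _ := pow_le_pow_left₀ (abs_nonneg _) h2 4
    have h3 : H t ^ 4 ≤ Real.log T := by
      have h4 : |H t| ≤ A := by
        simp only [hH]
        rw [abs_div, abs_of_pos (by norm_num : (0 : ℝ) < 2)]
        have h5 : |(dpl (X ^ 2) (sql X) t).im| ≤ ‖dpl (X ^ 2) (sql X) t‖ := Complex.abs_im_le_norm _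
        have h6 := dpl_sql X t
        have h7 : |(dpl (X ^ 2) (sql X) t).im| / 2 ≤ |(dpl (X ^ 2) (sql X) t).im| := by
          linarith [abs_nonneg (dpl (X ^ 2) (sql X) t).im]
        linarith
      calc H t ^ 4 = |H t| ^ 4 := by rw [← abs_pow, abs_of_nonneg (by positivity)]
        _ ≤ A ^ 4 := pow_le_pow_left₀ (abs_nonneg _) h4 4
        _ ≤ _ := hA4
    rw [e1]
    refine (four3 _ _ _).trans ?_
    linarith
  have iF : IntervalIntegrable (fun t => 27 * (E t ^ 4 + ‖dpl (X * X) (cvl (prl X) (prl X)) t‖ ^ 2 + Real.log T)) volume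
      (T / 2) (4 * T) := ((iE.add (cP.intervalIntegrable _ _)).add intervalIntegrable_const).const_mul 27
  have if4 : IntervalIntegrable (fun t => f t ^ 4) volume (T / 2) (4 * T) := by
    refine iF.mono_fun' (hf.pow_const 4).aestronglyMeasurable (Eventually.of_forall fun t => ?_)
    simp only
    rw [Real.norm_of_nonneg (by positivity)]
    exact hf4 t
  have bf4 : ∫ t in (T / 2)..(4 * T), f t ^ 4 ≤ 27 * (C1 + 32) * (T * Real.log T) := by
    refine (intervalIntegral.integral_mono hle if4 iF hf4).trans ?_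
    rw [intervalIntegral.integral_const_mul, intervalIntegral.integral_add (iE.add (cP.intervalIntegrable _ _)) intervalIntegrable_const,
      intervalIntegral.integral_add iE (cP.intervalIntegrable _ _), intervalIntegral.integral_const, smul_eq_mul]
    have h1 : C1 * T ≤ C1 * (T * Real.log T) := by
      refine mul_le_mul_of_nonneg_left ?_ hC10
      nlinarith
    have h2 : 0 ≤ T * Real.log T := by positivity
    nlinarith
  have hle3 : T / 2 ≤ 3 * T := by linarith
  have if43 : IntervalIntegrable (fun t => f t ^ 4) volume (T / 2) (3 * T) :=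
    if4.mono_set (by rw [uIcc_of_le hle, uIcc_of_le hle3]; exact Icc_subset_Icc le_rfl (by linarith))
  have hTL : 0 ≤ T * Real.log T := by positivity
  have hKT : 0 ≤ T := hT0.le
  refine ⟨(intervalIntegrable_iff_integrableOn_Icc_of_le hle3).1 if43, ?_, ?_⟩
  · have h1 : ∫ t in (T / 2)..(3 * T), f t ^ 4 ≤ ∫ t in (T / 2)..(4 * T), f t ^ 4 :=
      intervalIntegral.integral_mono_interval le_rfl hle3 (by linarith) (Eventually.of_forall fun t => by positivity) if4
    have h2 : 0 ≤ (28 + 4 * C1 + 4 * K1) * (T * Real.log T) := by positivity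
    calc _ ≤ 27 * (C1 + 32) * (T * Real.log T) := h1.trans bf4
      _ ≤ 27 * (C1 + 32) * (T * Real.log T) + (28 + 4 * C1 + 4 * K1) * (T * Real.log T) := by linarith
      _ = _ := by ring
  · -- the local average
    set Q : ℝ → ℝ := fun t => E t + H t with hQ
    have cQ2 : Continuous fun t => ‖dpl (X ^ 2) (sql X) t‖ ^ 2 := (dpl_cont _ _).norm.pow 2
    have bS := mv4 hMV hT32 (X ^ 2) hXX2 (sql X)
    have bS2 : ∫ t in (T / 2)..(4 * T), ‖dpl (X ^ 2) (sql X) t‖ ^ 2 ≤ 14 * T := by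
      have h1 := N2_sql X
      have h2 : 7 * T * N2l (X ^ 2) (sql X) ≤ 7 * T * 2 := mul_le_mul_of_nonneg_left h1 (by positivity)
      linarith
    have hQ2 : ∀ t, Q t ^ 2 ≤ 2 * (1 + E t ^ 4) + 1 / 2 * ‖dpl (X ^ 2) (sql X) t‖ ^ 2 := by
      intro t
      have h1 : H t ^ 2 ≤ 1 / 4 * ‖dpl (X ^ 2) (sql X) t‖ ^ 2 := by
        have h5 : |(dpl (X ^ 2) (sql X) t).im| ≤ ‖dpl (X ^ 2) (sql X) t‖ := Complex.abs_im_le_norm _
        have h6 : (dpl (X ^ 2) (sql X) t).im ^ 2 ≤ ‖dpl (X ^ 2) (sql X) t‖ ^ 2 := by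
          rw [← sq_abs]
          exact pow_le_pow_left₀ (abs_nonneg _) h5 2
        simp only [hH]
        rw [div_pow]
        linarith
      have h2 : E t ^ 2 ≤ 1 + E t ^ 4 := by nlinarith [sq_nonneg (E t ^ 2 - 1), sq_nonneg (E t)]
      simp only [hQ]
      nlinarith [sq_nonneg (E t - H t)]
    have iB : IntervalIntegrable (fun t => 2 * (1 + E t ^ 4) + 1 / 2 * ‖dpl (X ^ 2) (sql X) t‖ ^ 2) volume (T / 2) (4 * T) :=
      ((intervalIntegrable_const.add iE).const_mul 2).add ((cQ2.intervalIntegrable _ _).const_mul _)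
    have mQ : Measurable Q := mE.add cH.measurable
    have iQ2 : IntervalIntegrable (fun t => Q t ^ 2) volume (T / 2) (4 * T) := by
      refine iB.mono_fun' (mQ.pow_const 2).aestronglyMeasurable (Eventually.of_forall fun t => ?_)
      simp only
      rw [Real.norm_of_nonneg (by positivity)]
      exact hQ2 t
    have iQ : IntervalIntegrable Q volume (T / 2) (4 * T) := by
      refine (intervalIntegrable_const.add iQ2).mono_fun' mQ.aestronglyMeasurable
        (g := fun t => 1 + Q t ^ 2) (Eventually.of_forall fun t => ?_)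
      simp only
      rw [Real.norm_eq_abs]
      nlinarith [sq_abs (Q t), sq_nonneg (|Q t| - 1), abs_nonneg (Q t)]
    have bQ2 : ∫ t in (T / 2)..(4 * T), Q t ^ 2 ≤ (14 + 2 * C1) * T := by
      refine (intervalIntegral.integral_mono hle iQ2 iB hQ2).trans ?_
      rw [intervalIntegral.integral_add ((intervalIntegrable_const.add iE).const_mul 2) ((cQ2.intervalIntegrable _ _).const_mul _),
        intervalIntegral.integral_const_mul, intervalIntegral.integral_const_mul,
        intervalIntegral.integral_add intervalIntegrable_const iE, intervalIntegral.integral_const, smul_eq_mul]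
      linarith
    have hiw : ∀ {g : ℝ → ℝ}, IntervalIntegrable g volume (T / 2) (4 * T) → ∀ t ∈ Icc T (2 * T),
        IntervalIntegrable g volume (t - 1 / 2) (t + 1 / 2) := by
      intro g hg t ht
      refine hg.mono_set ?_
      rw [uIcc_of_le hle]
      exact uIcc_subset_Icc ⟨by linarith [ht.1], by linarith [ht.2]⟩ ⟨by linarith [ht.1], by linarith [ht.2]⟩
    obtain ⟨wc, wb⟩ := window (h := fun t => Q t ^ 2) (a := T) (b := 2 * T) (A := T / 2) (B := 4 * T)
      (fun y => by positivity) (by linarith) (by linarith) (by linarith) iQ2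
    have cR : Continuous fun t => ‖dpl X (fun n => prl X n * cc n) t‖ ^ 2 := (dpl_cont _ _).norm.pow 2
    have hT16 : (X : ℝ) ≤ T ^ (1 / 4 : ℝ) := by
      have h1 : (X : ℝ) ≤ ((X * X : ℕ) : ℝ) := by
        push_cast
        have : (1 : ℝ) ≤ X := by exact_mod_cast (by omega : 1 ≤ X)
        nlinarith
      refine h1.trans (hXX.trans ?_)
      exact Real.rpow_le_rpow (by positivity) (by linarith) (by norm_num)
    have bR := hMV T (by linarith) X hT16 (fun n => prl X n * cc n)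
    have bR2 : ∫ t in T..(2 * T), ‖dpl X (fun n => prl X n * cc n) t‖ ^ 2 ≤ 2 * K1 * T := by
      have h2 : 2 * T * N2l X (fun n => prl X n * cc n) ≤ 2 * T * K1 := mul_le_mul_of_nonneg_left (hN2 X hX3) (by positivity)
      linarith
    have ifi : IntervalIntegrable f volume (T / 2) (4 * T) := by
      have e1 : f = fun t => Q t + G t := by
        funext t
        simp only [hQ, hE]
        ring
      rw [e1]
      exact iQ.add (cG.intervalIntegrable _ _)
    have hpt : ∀ t ∈ Icc T (2 * T), (∫ y in (t - 1 / 2)..(t + 1 / 2), f y) ^ 2 ≤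
        2 * (∫ y in (t - 1 / 2)..(t + 1 / 2), Q y ^ 2) + 2 * ‖dpl X (fun n => prl X n * cc n) t‖ ^ 2 := by
      intro t ht
      have e1 : ∫ y in (t - 1 / 2)..(t + 1 / 2), f y = (∫ y in (t - 1 / 2)..(t + 1 / 2), Q y) + ∫ y in (t - 1 / 2)..(t + 1 / 2), G y := by
        rw [← intervalIntegral.integral_add (hiw iQ t ht) (cG.intervalIntegrable _ _)]
        refine intervalIntegral.integral_congr fun y _ => ?_
        simp only [hQ, hE]
        ring
      have h1 := sq_int_le (h := Q) (a := t - 1 / 2) (b := t + 1 / 2) (by ring) (hiw iQ t ht) (hiw iQ2 t ht)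
      have h2 : (∫ y in (t - 1 / 2)..(t + 1 / 2), G y) ^ 2 ≤ ‖dpl X (fun n => prl X n * cc n) t‖ ^ 2 := by
        have e2 : ∫ y in (t - 1 / 2)..(t + 1 / 2), G y = (∫ y in (t - 1 / 2)..(t + 1 / 2), dpl X (prl X) y).im := by
          have := Complex.imCLM.intervalIntegral_comp_comm (((dpl_cont X (prl X)).intervalIntegrable (μ := volume) (t - 1 / 2) (t + 1 / 2)))
          simpa using this
        rw [e2, avg_dpl]
        have h5 := Complex.abs_im_le_norm (dpl X (fun n => prl X n * cc n) t)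
        rw [← sq_abs]
        exact pow_le_pow_left₀ (abs_nonneg _) h5 2
      rw [e1]
      nlinarith [sq_nonneg ((∫ y in (t - 1 / 2)..(t + 1 / 2), Q y) - ∫ y in (t - 1 / 2)..(t + 1 / 2), G y)]
    have hT2 : T ≤ 2 * T := by linarith
    have iW : IntervalIntegrable (fun t => ∫ y in (t - 1 / 2)..(t + 1 / 2), Q y ^ 2) volume T (2 * T) := by
      apply ContinuousOn.intervalIntegrable
      rwa [uIcc_of_le hT2]
    have iL : IntervalIntegrable (fun t => (∫ y in (t - 1 / 2)..(t + 1 / 2), f y) ^ 2) volume T (2 * T) := by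
      apply ContinuousOn.intervalIntegrable
      rw [uIcc_of_le hT2]
      exact (window_cont (a := T) (b := 2 * T) (A := T / 2) (B := 4 * T) (by linarith) (by linarith) (by linarith) ifi).pow 2
    have h3 := intervalIntegral.integral_mono_on hT2 iL ((iW.const_mul 2).add ((cR.intervalIntegrable _ _).const_mul 2)) hpt
    rw [intervalIntegral.integral_add (iW.const_mul 2) ((cR.intervalIntegrable _ _).const_mul 2),
      intervalIntegral.integral_const_mul, intervalIntegral.integral_const_mul] at h3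
    have h4 : 0 ≤ 27 * (C1 + 32) * T := by positivity
    nlinarith

end

end Pool.Agent.U858.MV2
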